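import Mathlib
import Pool.Agent.Helper50.BC.Goals

set_option autoImplicit false

open Pool.Agent.Helper50.BC Real

namespace Pool.Agent.Helper2.BC

lemma sg_cases (b : Bool) : sg b = 1 ∨ sg b = -1 := by
  cases b <;> simp [sg]

lemma pr_update {q : ℕ} (e : Fin q → Bool) (f : Fin q → ℝ) (j : Fin q) (a : ℝ) :
    pr e (WithLp.toLp 2 (Function.update f j a)) =
      pr e (WithLp.toLp 2 f) + sg (e j) * (a - f j) := by
  unfold pr
  have h1 : ∀ i, sg (e i) * (WithLp.toLp 2 (Function.update f j a) : E q) i =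
      sg (e i) * (WithLp.toLp 2 f : E q) i + (if i = j then sg (e j) * (a - f j) else 0) := by
    intro i
    by_cases h : i = j
    · subst h
      simp
      ring
    · simp [Function.update_of_ne h, h]
  rw [Finset.sum_congr rfl (fun i _ => h1 i), Finset.sum_add_distrib]
  simp

lemma cos_shift (c d : ℝ) (b : Bool) :
    cos (c + sg b * d) = cos d * cos c + sin d * cos (c + sg b * (π / 2)) := by
  rcases sg_cases b with h | h
  · rw [h, one_mul, one_mul, cos_add, cos_add, cos_pi_div_two, sin_pi_div_two]; ring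
  · rw [h]
    have h1 : c + -1 * d = c - d := by ring
    have h2 : c + -1 * (π / 2) = c - π / 2 := by ring
    rw [h1, h2, cos_sub, cos_sub, cos_pi_div_two, sin_pi_div_two]; ring

lemma sin_shift (c d : ℝ) (b : Bool) :
    sin (c + sg b * d) = cos d * sin c + sin d * sin (c + sg b * (π / 2)) := by
  rcases sg_cases b with h | h
  · rw [h, one_mul, one_mul, sin_add, sin_add, cos_pi_div_two, sin_pi_div_two]; ring
  · rw [h]
    have h1 : c + -1 * d = c - d := by ring
    have h2 : c + -1 * (π / 2) = c - π / 2 := by ring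
    rw [h1, h2, sin_sub, sin_sub, cos_pi_div_two, sin_pi_div_two]; ring

lemma cf_shift {q : ℕ} (w : (Fin q → Bool) → ℝ) (φ : ℝ) (f : Fin q → ℝ) (j : Fin q) (d : ℝ)
    (s : (Fin q → Bool) × Bool) :
    cf w φ (WithLp.toLp 2 (Function.update f j (f j + d))) s =
      cos d * cf w φ (WithLp.toLp 2 f) s +
        sin d * cf w φ (WithLp.toLp 2 (Function.update f j (f j + π / 2))) s := by
  unfold cf
  rw [pr_update, pr_update]
  have e1 : pr s.1 (WithLp.toLp 2 f) + sg (s.1 j) * (f j + d - f j) + φ =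
      (pr s.1 (WithLp.toLp 2 f) + φ) + sg (s.1 j) * d := by ring
  have e2 : pr s.1 (WithLp.toLp 2 f) + sg (s.1 j) * (f j + π / 2 - f j) + φ =
      (pr s.1 (WithLp.toLp 2 f) + φ) + sg (s.1 j) * (π / 2) := by ring
  rw [e1, e2]
  by_cases h : s.2
  · simp only [h, if_true]
    rw [sin_shift]; ring
  · simp only [h]
    simp only [Bool.false_eq_true, if_false]
    rw [cos_shift]; ring

lemma RR_shift {q N : ℕ} (A : Fin N → ((Fin q → Bool) × Bool) → Bool)
    (w : (Fin q → Bool) → ℝ) (φ : ℝ) (f : Fin q → ℝ) (j : Fin q) (d : ℝ) :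
    RR A w φ (WithLp.toLp 2 (Function.update f j (f j + d))) =
      cos d • RR A w φ (WithLp.toLp 2 f) +
        sin d • RR A w φ (WithLp.toLp 2 (Function.update f j (f j + π / 2))) := by
  ext a
  simp only [RR, PiLp.add_apply, PiLp.smul_apply, smul_eq_mul]
  have : sgsum (cf w φ (WithLp.toLp 2 (Function.update f j (f j + d)))) (A a) =
      cos d * sgsum (cf w φ (WithLp.toLp 2 f)) (A a) +
      sin d * sgsum (cf w φ (WithLp.toLp 2 (Function.update f j (f j + π / 2)))) (A a) := by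
    unfold sgsum
    rw [Finset.mul_sum, Finset.mul_sum, ← Finset.sum_add_distrib]
    refine Finset.sum_congr rfl (fun s _ => ?_)
    rw [cf_shift]; ring
  rw [this]; ring

lemma RR_bdd {q N : ℕ} (A : Fin N → ((Fin q → Bool) × Bool) → Bool)
    (w : (Fin q → Bool) → ℝ) (φ : ℝ) : ∃ B : ℝ, 0 ≤ B ∧ ∀ x, ‖RR A w φ x‖ ≤ B := by
  set K : ℝ := |(√((N : ℝ) * 2 ^ q))⁻¹| * ∑ s : (Fin q → Bool) × Bool, |w s.1| with hK
  refine ⟨√(∑ a : Fin N, K ^ 2), Real.sqrt_nonneg _, fun x => ?_⟩
  rw [EuclideanSpace.norm_eq]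
  apply Real.sqrt_le_sqrt
  refine Finset.sum_le_sum (fun a _ => ?_)
  have h0 : ‖(RR A w φ x) a‖ ≤ K := by
    simp only [RR, Real.norm_eq_abs, abs_mul]
    rw [hK]
    refine mul_le_mul_of_nonneg_left ?_ (abs_nonneg _)
    unfold sgsum
    refine (Finset.abs_sum_le_sum_abs _ _).trans (Finset.sum_le_sum (fun s _ => ?_))
    rw [abs_mul]
    have h1 : |sg (A a s)| = 1 := by
      rcases sg_cases (A a s) with h | h <;> rw [h] <;> simp
    rw [h1, one_mul]
    unfold cf
    rw [abs_mul]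
    have h2 : |(if s.2 then Real.sin (pr s.1 x + φ) else Real.cos (pr s.1 x + φ))| ≤ 1 := by
      split_ifs
      · exact Real.abs_sin_le_one _
      · exact Real.abs_cos_le_one _
    calc |w s.1| * _ ≤ |w s.1| * 1 := mul_le_mul_of_nonneg_left h2 (abs_nonneg _)
      _ = |w s.1| := mul_one _
  have hn := norm_nonneg ((RR A w φ x) a)
  nlinarith

lemma step {q N : ℕ} (R : E q → E N) (B : ℝ) (hB : ∀ x, ‖R x‖ ≤ B)
    (hs : ∀ (f : Fin q → ℝ) (j : Fin q) (d : ℝ),
      R (WithLp.toLp 2 (Function.update f j (f j + d))) =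
      cos d • R (WithLp.toLp 2 f) + sin d • R (WithLp.toLp 2 (Function.update f j (f j + π / 2))))
    (f : Fin q → ℝ) (j : Fin q) (n : ℤ) (δ : ℝ) (h0 : 0 ≤ δ) (h1 : δ ≤ 1) :
    ‖R (WithLp.toLp 2 (Function.update f j (f j + (δ + n * (2 * π))))) - R (WithLp.toLp 2 f)‖ ≤
      (δ + δ ^ 2 / 2) * B := by
  rw [hs, Real.cos_add_int_mul_two_pi, Real.sin_add_int_mul_two_pi]
  set P := R (WithLp.toLp 2 f)
  set Q := R (WithLp.toLp 2 (Function.update f j (f j + π / 2)))
  have e : cos δ • P + sin δ • Q - P = (cos δ - 1) • P + sin δ • Q := by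
    rw [sub_smul, one_smul]; abel
  rw [e]
  have hP : ‖P‖ ≤ B := hB _
  have hQ : ‖Q‖ ≤ B := hB _
  have hB0 : 0 ≤ B := (norm_nonneg P).trans hP
  have hc : |cos δ - 1| ≤ δ ^ 2 / 2 := by
    rw [abs_le]
    constructor
    · have := Real.one_sub_sq_div_two_le_cos (x := δ); linarith
    · have := Real.cos_le_one δ
      nlinarith [sq_nonneg δ]
  have hsn : |sin δ| ≤ δ := by
    have h2 : 0 ≤ sin δ := Real.sin_nonneg_of_nonneg_of_le_pi h0 (by linarith [Real.pi_gt_three])
    rw [abs_of_nonneg h2]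
    exact Real.sin_le h0
  calc ‖(cos δ - 1) • P + sin δ • Q‖ ≤ ‖(cos δ - 1) • P‖ + ‖sin δ • Q‖ := norm_add_le _ _
    _ = |cos δ - 1| * ‖P‖ + |sin δ| * ‖Q‖ := by rw [norm_smul, norm_smul, Real.norm_eq_abs, Real.norm_eq_abs]
    _ ≤ δ ^ 2 / 2 * B + δ * B := by
        refine add_le_add (mul_le_mul hc hP (norm_nonneg _) (by positivity))
          (mul_le_mul hsn hQ (norm_nonneg _) h0)
    _ = (δ + δ ^ 2 / 2) * B := by ring

lemma near {q N : ℕ} (hq : 1 ≤ q) (R : E q → E N) (B : ℝ) (hB : ∀ x, ‖R x‖ ≤ B)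
    (hs : ∀ (f : Fin q → ℝ) (j : Fin q) (d : ℝ),
      R (WithLp.toLp 2 (Function.update f j (f j + d))) =
      cos d • R (WithLp.toLp 2 f) + sin d • R (WithLp.toLp 2 (Function.update f j (f j + π / 2))))
    (x : E q) : ∃ m : Fin q → Fin (7000 * q), ‖R x - R (gx m)‖ ≤ B / 1000 := by
  have hqR : (1 : ℝ) ≤ q := by exact_mod_cast hq
  have hpi : 0 < π := Real.pi_pos
  have hpi2 : π < 3.15 := Real.pi_lt_d2
  set D : ℝ := 2 * π / (7000 * q) with hD
  have hDpos : 0 < D := by positivity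
  have hDq : (q : ℝ) * D ≤ 9 / 10000 := by
    have : (q : ℝ) * D = 2 * π / 7000 := by rw [hD]; field_simp
    rw [this]; norm_num; linarith
  have hDle : D ≤ 9 / 10000 := by nlinarith
  have key : ∀ y : ℝ, ∃ (n : ℤ) (k : Fin (7000 * q)) (δ : ℝ), 0 ≤ δ ∧ δ ≤ D ∧
      y = 2 * π * ((k : ℕ) : ℝ) / (7000 * q) + (δ + n * (2 * π)) := by
    intro y
    set n : ℤ := ⌊y / (2 * π)⌋
    have hn1 : (n : ℝ) ≤ y / (2 * π) := Int.floor_le _
    have hn2 : y / (2 * π) < n + 1 := Int.lt_floor_add_one _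
    set r : ℝ := y - n * (2 * π) with hr
    have hr0 : 0 ≤ r := by
      have : (n : ℝ) * (2 * π) ≤ y := by rwa [le_div_iff₀ (by positivity)] at hn1
      linarith
    have hr1 : r < 2 * π := by
      have : y < (n + 1) * (2 * π) := by rwa [div_lt_iff₀ (by positivity)] at hn2
      linarith
    set k : ℕ := ⌊r / D⌋₊
    have hk1 : (k : ℝ) ≤ r / D := Nat.floor_le (by positivity)
    have hk2 : r / D < k + 1 := Nat.lt_floor_add_one _
    have hk1' : (k : ℝ) * D ≤ r := by rwa [le_div_iff₀ hDpos] at hk1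
    have hk2' : r < (k + 1) * D := by rwa [div_lt_iff₀ hDpos] at hk2
    have hkq : k < 7000 * q := by
      have : (k : ℝ) * D < 2 * π := lt_of_le_of_lt hk1' hr1
      have h3 : (k : ℝ) < 7000 * q := by
        have h4 : 2 * π = (7000 * q) * D := by rw [hD]; field_simp
        rw [h4] at this
        exact lt_of_mul_lt_mul_right this hDpos.le
      exact_mod_cast h3
    refine ⟨n, ⟨k, hkq⟩, r - k * D, by linarith, by linarith, ?_⟩
    have h5 : 2 * π * ((k : ℕ) : ℝ) / (7000 * q) = k * D := by rw [hD]; ring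
    simp only
    rw [h5, hr]; ring
  choose n k δ hδ0 hδ1 hy using key
  refine ⟨fun i => k (x i), ?_⟩
  set g : Fin q → ℝ := fun i => 2 * π * ((k (x i) : ℕ) : ℝ) / (7000 * q) with hg
  have hgx : gx (fun i => k (x i)) = WithLp.toLp 2 g := rfl
  have hx : x = WithLp.toLp 2 (fun i => x i) := rfl
  have main : ∀ s : Finset (Fin q),
      ‖R (WithLp.toLp 2 (s.piecewise (fun i => x i) g)) - R (WithLp.toLp 2 g)‖ ≤
        s.card * ((D + D ^ 2 / 2) * B) := by
    intro s
    induction s using Finset.induction_on with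
    | empty => simp
    | insert j s hj ih =>
      rw [Finset.piecewise_insert, Finset.card_insert_of_notMem hj]
      set f := s.piecewise (fun i => x i) g with hf
      have hfj : f j = g j := by rw [hf]; exact Finset.piecewise_eq_of_notMem _ _ _ hj
      have hxj : x j = f j + (δ (x j) + n (x j) * (2 * π)) := by
        rw [hfj, hg]; exact hy (x j)
      have hst := step R B hB hs f j (n (x j)) (δ (x j)) (hδ0 _) (by linarith [hδ1 (x j)])
      rw [← hxj] at hst
      have hB0 : 0 ≤ B := (norm_nonneg _).trans (hB x)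
      have hmono : (δ (x j) + δ (x j) ^ 2 / 2) * B ≤ (D + D ^ 2 / 2) * B := by
        refine mul_le_mul_of_nonneg_right ?_ hB0
        have := hδ0 (x j)
        have := hδ1 (x j)
        nlinarith
      have tri : ‖R (WithLp.toLp 2 (Function.update f j (x j))) - R (WithLp.toLp 2 g)‖ ≤
          ‖R (WithLp.toLp 2 (Function.update f j (x j))) - R (WithLp.toLp 2 f)‖ +
          ‖R (WithLp.toLp 2 f) - R (WithLp.toLp 2 g)‖ := by
        have := norm_add_le (R (WithLp.toLp 2 (Function.update f j (x j))) - R (WithLp.toLp 2 f))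
          (R (WithLp.toLp 2 f) - R (WithLp.toLp 2 g))
        simpa using this
      push_cast
      linarith
  have hfin := main Finset.univ
  rw [Finset.piecewise_univ, ← hx, ← hgx, Finset.card_univ, Fintype.card_fin] at hfin
  refine hfin.trans ?_
  have hB0 : 0 ≤ B := (norm_nonneg _).trans (hB x)
  have : (q : ℝ) * (D + D ^ 2 / 2) ≤ 1 / 1000 := by nlinarith
  calc (q : ℝ) * ((D + D ^ 2 / 2) * B) = (q * (D + D ^ 2 / 2)) * B := by ring
    _ ≤ 1 / 1000 * B := mul_le_mul_of_nonneg_right this hB0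
    _ = B / 1000 := by ring

theorem goalSHX : G_SHX := by
  intro q N hq A w φ M hM
  obtain ⟨B0, hB00, hB0⟩ := RR_bdd A w φ
  have hs := RR_shift A w φ
  have hbdd : BddAbove (Set.range (fun x => ‖RR A w φ x‖)) := ⟨B0, by
    rintro _ ⟨x, rfl⟩; exact hB0 x⟩
  set B : ℝ := sSup (Set.range (fun x => ‖RR A w φ x‖)) with hBdef
  have hB : ∀ x, ‖RR A w φ x‖ ≤ B := fun x => le_csSup hbdd ⟨x, rfl⟩
  have hBM : B ≤ M + B / 1000 := by
    refine csSup_le (Set.range_nonempty _) ?_
    rintro _ ⟨x, rfl⟩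
    obtain ⟨m, hm⟩ := near hq (RR A w φ) B hB hs x
    have h1 := norm_le_norm_add_norm_sub' (RR A w φ x) (RR A w φ (gx m))
    have h2 := hM m
    simp only
    linarith
  intro x
  refine ⟨?_, ?_⟩
  · have := hB x
    linarith
  · obtain ⟨m, hm⟩ := near hq (RR A w φ) B hB hs x
    exact ⟨m, by linarith⟩

end Pool.Agent.Helper2.BC
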